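import Pool.Agent.MP_6a4325_al.H62.Spec

/-!
Extension of injective characters (row T3A).
-/

set_option autoImplicit false

namespace Pool.Agent.MP_6a4325_al.H32

open H62

/-- the `p`-adic valuation on the units of `ℚ` -/
noncomputable def vp (p : ℕ) (hp : p.Prime) : Additive ℚˣ →+ ℤ :=
  AddMonoidHom.mk' (fun x => padicValRat p ((Additive.toMul x : ℚˣ) : ℚ)) (by
    intro x y
    have := Fact.mk hp
    simp only [toMul_add, Units.val_mul]
    exact padicValRat.mul (Units.ne_zero _) (Units.ne_zero _))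

theorem vp_big (x : Additive ℚˣ) : ∃ N : ℕ, ∀ (p : ℕ) (hp : p.Prime), N < p → vp p hp x = 0 := by
  set q : ℚ := ((Additive.toMul x : ℚˣ) : ℚ) with hq
  have hq0 : q ≠ 0 := Units.ne_zero _
  refine ⟨q.num.natAbs + q.den, fun p hp hN => ?_⟩
  change padicValRat p q = 0
  have h1 : padicValInt p q.num = 0 := by
    apply padicValNat.eq_zero_of_not_dvd
    intro h
    have := Nat.le_of_dvd (Int.natAbs_pos.mpr (Rat.num_ne_zero.mpr hq0)) h
    omega
  have h2 : padicValNat p q.den = 0 := by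
    apply padicValNat.eq_zero_of_not_dvd
    intro h
    have := Nat.le_of_dvd q.den_pos h
    omega
  simp [padicValRat, h1, h2]

theorem fresh (Γ : Submodule ℤ (Additive ℚˣ)) (hΓ : Γ.FG) (k : ℕ) :
    ∃ (q : Fin k → Additive ℚˣ) (v : Fin k → Additive ℚˣ →+ ℤ),
      (∀ i, ∀ γ ∈ Γ, v i γ = 0) ∧ ∀ i j, v i (q j) = if j = i then 1 else 0 := by
  obtain ⟨T, rfl⟩ := hΓ
  choose N hN using vp_big
  let N0 := T.sup N
  let P : Fin k → ℕ := fun i => Nat.nth Nat.Prime (N0 + 1 + i)
  have hP : ∀ i, (P i).Prime := fun i => Nat.prime_nth_prime _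
  have hmono : StrictMono (Nat.nth Nat.Prime) := Nat.nth_strictMono Nat.infinite_setOfPred_prime
  have hbig : ∀ i, N0 < P i := fun i => by
    have := hmono.id_le (N0 + 1 + i)
    simp only [id] at this
    change N0 < Nat.nth Nat.Prime (N0 + 1 + i)
    omega
  refine ⟨fun j => Additive.ofMul (Units.mk0 (P j : ℚ) (by exact_mod_cast (hP j).ne_zero)),
    fun i => vp (P i) (hP i), fun i γ hγ => ?_, fun i j => ?_⟩
  · induction hγ using Submodule.span_induction with
    | mem x hx => exact hN x _ _ (lt_of_le_of_lt (Finset.le_sup (f := N) hx) (hbig i))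
    | zero => simp
    | add x y _ _ hx hy => simp [hx, hy]
    | smul a x _ hx => simp [hx]
  · change padicValRat (P i) (P j : ℚ) = _
    have := Fact.mk (hP i)
    have := Fact.mk (hP j)
    rw [padicValRat.of_nat]
    split_ifs with h
    · subst h; simp
    · have : P i ≠ P j := fun e => h (by
        have := hmono.injective e
        exact Fin.ext (by omega))
      simp [padicValNat_primes this]

theorem ext_add (M : Type) [AddCommGroup M] [Module.Finite ℤ M]
    (hM : ∀ (n : ℤ) (x : M), n ≠ 0 → n • x = 0 → x = 0) (N : Submodule ℤ M)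
    (θ : N →ₗ[ℤ] Additive ℚˣ) (hθ : Function.Injective θ) :
    ∃ (m : ℕ) (Θ : M →ₗ[ℤ] Additive ℚˣ), 0 < m ∧ Function.Injective Θ ∧
      ∀ (a : M) (h : (m : ℤ) • a ∈ N), Θ a = θ ⟨(m : ℤ) • a, h⟩ := by
  let S : Submodule ℤ M := (Submodule.torsion ℤ (M ⧸ N)).comap N.mkQ
  have hS : ∀ x, x ∈ S ↔ ∃ n : ℤ, n ≠ 0 ∧ n • x ∈ N := by
    intro x
    simp only [S, Submodule.mem_comap, Submodule.mem_torsion_iff]
    constructor
    · rintro ⟨⟨n, hn⟩, h⟩
      refine ⟨n, nonZeroDivisors.ne_zero hn, ?_⟩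
      rw [← Submodule.Quotient.mk_eq_zero]
      exact h
    · rintro ⟨n, hn, h⟩
      refine ⟨⟨n, mem_nonZeroDivisors_of_ne_zero hn⟩, ?_⟩
      rw [← Submodule.Quotient.mk_eq_zero] at h
      exact h
  obtain ⟨m, hm0, hm⟩ : ∃ m : ℕ, 0 < m ∧ ∀ x ∈ S, (m : ℤ) • x ∈ N := by
    obtain ⟨n, hn1, hn2⟩ := Submodule.annihilator_top_inter_nonZeroDivisors
      (R := ℤ) (M := Submodule.torsion ℤ (M ⧸ N)) Submodule.torsion_isTorsion
    refine ⟨n.natAbs, Int.natAbs_pos.mpr (nonZeroDivisors.ne_zero hn2), fun x hx => ?_⟩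
    have h1 : n • x ∈ N := by
      have := Submodule.mem_annihilator.mp hn1 ⟨N.mkQ x, hx⟩ trivial
      have h2 := congrArg Subtype.val this
      rw [← Submodule.Quotient.mk_eq_zero]
      exact h2
    rcases Int.natAbs_eq n with h | h
    · rw [← h]; exact h1
    · have : (n.natAbs : ℤ) = -n := by omega
      rw [this, neg_smul]; exact N.neg_mem h1
  have : Module.IsTorsionFree ℤ (M ⧸ S) := by
    refine Module.IsTorsionFree.of_smul_eq_zero ?_
    intro n y hy
    obtain ⟨x, rfl⟩ := S.mkQ_surjective y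
    by_cases hn : n = 0
    · exact Or.inl hn
    · right
      have h1 : n • x ∈ S := by
        rw [← Submodule.Quotient.mk_eq_zero]
        exact hy
      obtain ⟨k, hk, h2⟩ := (hS _).mp h1
      have : x ∈ S := (hS _).mpr ⟨k * n, mul_ne_zero hk hn, by rwa [mul_smul]⟩
      exact (Submodule.Quotient.mk_eq_zero S).mpr this
  have : Module.Free ℤ (M ⧸ S) := Module.free_of_finite_type_torsion_free'
  obtain ⟨σ, hσ⟩ := LinearMap.exists_rightInverse_of_surjective S.mkQ S.range_mkQ
  let b := Module.finBasis ℤ (M ⧸ S)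
  have hfg : (LinearMap.range θ).FG := by
    have : Module.Finite ℤ N := inferInstance
    exact Submodule.fg_range θ
  obtain ⟨q, v, hv, hq⟩ := fresh _ hfg (Module.finrank ℤ (M ⧸ S))
  have hr : ∀ x : M, x - σ (S.mkQ x) ∈ S := by
    intro x
    rw [← Submodule.Quotient.mk_eq_zero]
    have := LinearMap.congr_fun hσ (S.mkQ x)
    simp only [LinearMap.comp_apply, LinearMap.id_apply] at this
    change S.mkQ (x - σ (S.mkQ x)) = 0
    rw [map_sub, this, sub_self]
  let μ : M →ₗ[ℤ] N := LinearMap.codRestrict N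
    ((m : ℤ) • (LinearMap.id - σ.comp S.mkQ)) (fun x => hm _ (hr x))
  let Θ : M →ₗ[ℤ] Additive ℚˣ := θ.comp μ + (b.constr ℤ q).comp S.mkQ
  have key : ∀ (a : M) (h : (m : ℤ) • a ∈ N), Θ a = θ ⟨(m : ℤ) • a, h⟩ := by
    intro a h
    have ha : S.mkQ a = 0 :=
      (Submodule.Quotient.mk_eq_zero S).mpr ((hS a).mpr ⟨m, by omega, h⟩)
    have : μ a = ⟨(m : ℤ) • a, h⟩ := by
      apply Subtype.ext
      change (m : ℤ) • (a - σ (S.mkQ a)) = (m : ℤ) • a
      rw [ha, map_zero, sub_zero]
    change θ (μ a) + (b.constr ℤ q) (S.mkQ a) = _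
    rw [this, ha, map_zero, add_zero]
  refine ⟨m, Θ, hm0, ?_, key⟩
  rw [injective_iff_map_eq_zero]
  intro a ha
  have h1 : S.mkQ a = 0 := by
    apply b.repr.injective
    ext i
    have h2 := congrArg (v i) ha
    change v i (θ (μ a) + (b.constr ℤ q) (S.mkQ a)) = _ at h2
    rw [map_add, hv i _ ⟨_, rfl⟩, zero_add, map_zero, Module.Basis.constr_apply_fintype,
      map_sum] at h2
    simp only [map_zsmul, hq, smul_eq_mul, mul_ite, mul_one, mul_zero, Finset.sum_ite_eq',
      Finset.mem_univ, if_true] at h2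
    simpa using h2
  have h2 : (m : ℤ) • a ∈ N := hm a ((Submodule.Quotient.mk_eq_zero S).mp h1)
  rw [key a h2] at ha
  have h3 := congrArg Subtype.val (hθ (ha.trans (map_zero θ).symm))
  exact hM m a (by omega) h3

theorem extCh : SExtCh := by
  intro A _ hfg htf B θ hθ
  have : Module.Finite ℤ (Additive A) := by
    have := hfg
    exact Module.Finite.iff_addGroup_fg.mpr inferInstance
  let N : Submodule ℤ (Additive A) := AddSubgroup.toIntSubmodule (Subgroup.toAddSubgroup B)
  let θ' : N →ₗ[ℤ] Additive ℚˣ := AddMonoidHom.toIntLinearMap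
    (AddMonoidHom.mk' (fun x : N => Additive.ofMul (θ ⟨Additive.toMul x.1, x.2⟩)) (by
      intro x y
      rw [← ofMul_mul, ← map_mul]
      rfl))
  have hθ' : Function.Injective θ' := by
    intro x y h
    have := hθ (Additive.ofMul.injective h)
    exact Subtype.ext (Additive.toMul.injective (congrArg Subtype.val this))
  obtain ⟨m, Θ, hm, hinj, key⟩ := ext_add (Additive A) (by
    intro n x hn hx
    have : IsOfFinOrder (Additive.toMul x) :=
      isOfFinOrder_iff_zpow_eq_one.mpr ⟨n, hn, congrArg Additive.toMul hx⟩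
    exact congrArg Additive.ofMul (htf _ this)) N θ' hθ'
  refine ⟨m, AddMonoidHom.toMultiplicative.symm.symm Θ.toAddMonoidHom |>.comp
    (MulEquiv.multiplicativeAdditive A).symm.toMonoidHom |> fun f =>
      (MulEquiv.multiplicativeAdditive ℚˣ).toMonoidHom.comp f, hm, ?_, ?_⟩
  · intro x y h
    exact Additive.ofMul.injective (hinj h)
  · intro a h
    have h' : (m : ℤ) • Additive.ofMul a ∈ N := by
      rw [natCast_zsmul]; exact h
    have := key _ h'
    change Additive.toMul (Θ (Additive.ofMul a)) = _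
    rw [this]
    change θ _ = θ _
    congr 1
    apply Subtype.ext
    change Additive.toMul ((m : ℤ) • Additive.ofMul a) = a ^ m
    rw [natCast_zsmul]; rfl

end Pool.Agent.MP_6a4325_al.H32
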